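import Pool.Agent.Helper96.SA.Trot
import Pool.Agent.Helper35.TZ.Conn

/-!
# Project FQ (MP_0f6f3f_an), layer EQ: the derivative of a homomorphism

`one_param`: continuous one-parameter groups of matrices are `exp(tY)`. `exists_psi`: a continuous homomorphism `S₁ → GL(M, ℝ)` has a linear derivative.
-/

set_option autoImplicit false
set_option linter.unusedSectionVars false

open Filter Topology MeasureTheory Matrix

namespace Pool.Agent.Helper23.EQ

open Pool.Agent.Helper96.SA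

variable {M : ℕ}

section Norm

variable {E : Type} [NormedRing E] [NormedAlgebra ℝ E] [CompleteSpace E] [NormOneClass E]

/-- **Continuous one-parameter groups of a Banach algebra.** -/
theorem one_paramE {φ : ℝ → E} (hc : Continuous φ) (h0 : φ 0 = 1) (hadd : ∀ s t, φ (s + t) = φ s * φ t) :
    ∃ Y : E, ∀ t : ℝ, φ t = NormedSpace.exp (t • Y) := by
  -- the mean over a short interval is invertible
  have hint : ∀ a b : ℝ, IntervalIntegrable φ volume a b := fun a b => hc.intervalIntegrable a b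
  have hev : ∀ᶠ s in 𝓝 (0 : ℝ), ‖φ s - 1‖ < 1 / 2 := by
    have h1 : Tendsto (fun s => ‖φ s - 1‖) (𝓝 0) (𝓝 ‖φ 0 - 1‖) := ((hc.tendsto 0).sub_const 1).norm
    rw [h0, sub_self, norm_zero] at h1
    exact h1.eventually (gt_mem_nhds (by norm_num))
  obtain ⟨r, hr, hr'⟩ := Metric.eventually_nhds_iff.1 hev
  set ε : ℝ := r / 2 with hε
  have hεp : 0 < ε := by positivity
  set A : E := ∫ s in (0 : ℝ)..ε, φ s with hA
  have hA1 : ‖A - ε • (1 : E)‖ ≤ 1 / 2 * ε := by
    have h1 : A - ε • (1 : E) = ∫ s in (0 : ℝ)..ε, (φ s - 1) := by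
      rw [intervalIntegral.integral_sub (hint _ _) intervalIntegrable_const, intervalIntegral.integral_const, sub_zero]
    rw [h1]
    have h2 := intervalIntegral.norm_integral_le_of_norm_le_const (a := (0 : ℝ)) (b := ε) (f := fun s => φ s - 1) (C := 1 / 2) (by
      intro s hs
      rw [Set.uIoc_of_le hεp.le] at hs
      refine (hr' ?_).le
      rw [Real.dist_eq, sub_zero, abs_of_pos hs.1]
      linarith [hs.2])
    rwa [sub_zero, abs_of_pos hεp] at h2
  have hA2 : IsUnit A := by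
    have h1 : ‖1 - ε⁻¹ • A‖ < 1 := by
      have h2 : 1 - ε⁻¹ • A = -(ε⁻¹ • (A - ε • (1 : E))) := by
        rw [smul_sub, smul_smul, inv_mul_cancel₀ hεp.ne', one_smul]
        abel
      rw [h2, norm_neg, norm_smul, norm_inv, Real.norm_of_nonneg hεp.le]
      calc ε⁻¹ * ‖A - ε • (1 : E)‖ ≤ ε⁻¹ * (1 / 2 * ε) := by gcongr
        _ = 1 / 2 := by field_simp
        _ < 1 := by norm_num
    have h2 : IsUnit (ε⁻¹ • A) := by
      have h3 : ε⁻¹ • A = 1 - (1 - ε⁻¹ • A) := by abel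
      rw [h3]
      exact ⟨Units.oneSub _ h1, rfl⟩
    have h3 : A = (Units.mk0 ε hεp.ne') • (ε⁻¹ • A) := by
      rw [Units.smul_def, Units.val_mk0, smul_smul, mul_inv_cancel₀ hεp.ne', one_smul]
    rw [h3]
    exact h2.smul _
  obtain ⟨B, hAB⟩ := hA2.exists_right_inv
  -- `φ(t) A = ∫_t^(t+ε) φ`
  have h1 : ∀ t, φ t * A = (∫ s in (0 : ℝ)..(t + ε), φ s) - ∫ s in (0 : ℝ)..t, φ s := by
    intro t
    have h2 : φ t * A = ∫ s in (0 : ℝ)..ε, φ (t + s) := by
      rw [hA]
      have h3 := (ContinuousLinearMap.mul ℝ E (φ t)).intervalIntegral_comp_comm (hint 0 ε)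
      change _ = (φ t) * _ at h3
      rw [← h3]
      refine intervalIntegral.integral_congr fun s _ => ?_
      change φ t * φ s = φ (t + s)
      rw [hadd]
    rw [h2, intervalIntegral.integral_comp_add_left (fun s => φ s) t, add_zero,
      intervalIntegral.integral_interval_sub_left (hint _ _) (hint _ _)]
  have h2 : ∀ t, HasDerivAt (fun t => φ t * A) (φ (t + ε) - φ t) t := by
    intro t
    have e1 : (fun t => φ t * A) = fun t => (∫ s in (0 : ℝ)..(t + ε), φ s) - ∫ s in (0 : ℝ)..t, φ s := funext h1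
    rw [e1]
    have h3 : HasDerivAt (fun t => ∫ s in (0 : ℝ)..t, φ s) (φ t) t := intervalIntegral.integral_hasDerivAt_right (hint _ _)
      (hc.stronglyMeasurableAtFilter _ _) hc.continuousAt
    have h4 : HasDerivAt (fun t => ∫ s in (0 : ℝ)..t, φ s) (φ (t + ε)) (t + ε) := intervalIntegral.integral_hasDerivAt_right (hint _ _)
      (hc.stronglyMeasurableAtFilter _ _) hc.continuousAt
    exact (h4.comp_add_const t ε).sub h3
  set Y : E := (φ ε - 1) * B with hY
  have h3 : ∀ t, HasDerivAt φ (φ t * Y) t := by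
    intro t
    have h4 := (h2 t).mul_const B
    have e1 : (fun t => φ t * A * B) = φ := by
      funext t
      rw [mul_assoc, hAB, mul_one]
    rw [e1] at h4
    have e2 : (φ (t + ε) - φ t) * B = φ t * Y := by
      rw [hadd, hY]
      noncomm_ring
    rwa [e2] at h4
  refine ⟨Y, fun t => ?_⟩
  have h4 : ∀ t, HasDerivAt (fun t : ℝ => φ t * NormedSpace.exp (t • (-Y))) 0 t := by
    intro t
    have h5 : HasDerivAt (fun t : ℝ => NormedSpace.exp (t • (-Y))) (-Y * NormedSpace.exp (t • (-Y))) t := hasDerivAt_exp_smul_const' (-Y) t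
    have h6 := (h3 t).mul h5
    have e1 : φ t * Y * NormedSpace.exp (t • -Y) + φ t * (-Y * NormedSpace.exp (t • -Y)) = 0 := by
      noncomm_ring
    rwa [e1] at h6
  have h5 : φ t * NormedSpace.exp (t • (-Y)) = φ 0 * NormedSpace.exp ((0 : ℝ) • (-Y)) :=
    is_const_of_deriv_eq_zero (fun s => (h4 s).differentiableAt) (fun s => (h4 s).deriv) t 0
  rw [zero_smul, NormedSpace.exp_zero, mul_one, h0] at h5
  have h6 : NormedSpace.exp (t • (-Y)) * NormedSpace.exp (t • Y) = 1 := by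
    rw [smul_neg]
    exact Pool.Agent.Helper3.Lie.exp_neg_mul _
  calc φ t = φ t * (NormedSpace.exp (t • (-Y)) * NormedSpace.exp (t • Y)) := by rw [h6, mul_one]
    _ = _ := by rw [← mul_assoc, h5, one_mul]

open scoped Matrix.Norms.Operator

/-- **Continuous one-parameter groups of matrices.** -/
theorem one_param {φ : ℝ → Mat M} (hc : Continuous φ) (h0 : φ 0 = 1) (hadd : ∀ s t, φ (s + t) = φ s * φ t) :
    ∃ Y : Mat M, ∀ t : ℝ, φ t = NormedSpace.exp (t • Y) := by
  rcases Nat.eq_zero_or_pos M with hM | hM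
  · subst hM
    exact ⟨0, fun t => Subsingleton.elim _ _⟩
  have : Nonempty (Fin M) := ⟨⟨0, hM⟩⟩
  exact one_paramE hc h0 hadd

/-- The generator is unique. -/
theorem exp_inj {X Y : Mat M} (h : ∀ t : ℝ, NormedSpace.exp (t • X) = NormedSpace.exp (t • Y)) : X = Y := by
  have h1 : HasDerivAt (fun t : ℝ => NormedSpace.exp (t • X)) (X * NormedSpace.exp ((0 : ℝ) • X)) 0 := hasDerivAt_exp_smul_const' X 0
  have h2 : HasDerivAt (fun t : ℝ => NormedSpace.exp (t • Y)) (Y * NormedSpace.exp ((0 : ℝ) • Y)) 0 := hasDerivAt_exp_smul_const' Y 0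
  have e : (fun t : ℝ => NormedSpace.exp (t • X)) = fun t : ℝ => NormedSpace.exp (t • Y) := funext h
  rw [e] at h1
  have h3 := h1.unique h2
  rwa [zero_smul, zero_smul, NormedSpace.exp_zero, mul_one, mul_one] at h3

end Norm

theorem ex_inj {X Y : Mat M} (h : ∀ t : ℝ, ex (t • X) = ex (t • Y)) : X = Y :=
  exp_inj fun t => congrArg (fun g : GL (Fin M) ℝ => (g : Mat M)) (h t)

theorem one_param' {φ : ℝ → GL (Fin M) ℝ} (hc : Continuous φ) (hadd : ∀ s t, φ (s + t) = φ s * φ t) :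
    ∃ Y : Mat M, ∀ t : ℝ, φ t = ex (t • Y) := by
  have h0 : φ 0 = 1 := by
    have h1 := hadd 0 0
    rw [add_zero] at h1
    exact (mul_eq_left.1 h1.symm)
  obtain ⟨Y, hY⟩ := one_param (φ := fun t => (φ t : Mat M)) (Units.continuous_val.comp hc) (by rw [h0, Units.val_one])
    (fun s t => by rw [hadd, Units.val_mul])
  exact ⟨Y, fun t => Units.ext (hY t)⟩

section Psi

variable {S₁ : Type} [Group S₁] [TopologicalSpace S₁] {s : Type} [AddCommGroup s] [Module ℝ s]

/-- **The derivative of a homomorphism.** -/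
theorem exists_psi (e : s → S₁) (ec : ∀ X, Continuous fun t : ℝ => e (t • X)) (ea : ∀ (X : s) (a b : ℝ), e ((a + b) • X) = e (a • X) * e (b • X))
    (et : ∀ X Y, Tendsto (fun n : ℕ => (e ((n : ℝ)⁻¹ • X) * e ((n : ℝ)⁻¹ • Y)) ^ n) atTop (𝓝 (e (X + Y))))
    (ρ : S₁ →* GL (Fin M) ℝ) (hρ : Continuous ρ) : ∃ ψ : s →ₗ[ℝ] Mat M, (∀ X, ρ (e X) = ex (ψ X)) ∧
      ∀ (l : S₁) (X X' : s), (∀ t : ℝ, l * e (t • X) * l⁻¹ = e (t • X')) →
        ψ X' = ((ρ l : GL (Fin M) ℝ) : Mat M) * ψ X * (((ρ l)⁻¹ : GL (Fin M) ℝ) : Mat M) := by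
  have h1 : ∀ X : s, ∃ Y : Mat M, ∀ t : ℝ, ρ (e (t • X)) = ex (t • Y) := fun X =>
    one_param' (hρ.comp (ec X)) fun a b => by
      change ρ (e ((a + b) • X)) = _
      rw [ea, map_mul]
  choose ψ hψ using h1
  have hsm : ∀ (c : ℝ) (X : s), ψ (c • X) = c • ψ X := by
    intro c X
    refine ex_inj fun t => ?_
    rw [← hψ, smul_smul, hψ, smul_smul]
  have had : ∀ X Y : s, ψ (X + Y) = ψ X + ψ Y := by
    have h2 : ∀ X Y : s, ρ (e (X + Y)) = ex (ψ X + ψ Y) := by
      intro X Y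
      have h3 : Tendsto (fun n : ℕ => ρ ((e ((n : ℝ)⁻¹ • X) * e ((n : ℝ)⁻¹ • Y)) ^ n)) atTop (𝓝 (ρ (e (X + Y)))) :=
        (hρ.tendsto _).comp (et X Y)
      have h4 := trotter (ψ X) (ψ Y)
      refine tendsto_nhds_unique h3 (h4.congr fun n => ?_)
      rw [map_pow, map_mul, hψ, hψ]
    intro X Y
    refine ex_inj fun t => ?_
    rw [← hψ, smul_add, h2, hsm, hsm, smul_add]
  refine ⟨⟨⟨ψ, had⟩, hsm⟩, fun X => ?_, fun l X X' h => ?_⟩
  · have h2 := hψ X 1
    rwa [one_smul, one_smul] at h2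
  · change ψ X' = _ * ψ X * _
    refine ex_inj fun t => ?_
    rw [← hψ, ← h t, map_mul, map_mul, map_inv, hψ]
    have h3 : t • (((ρ l : GL (Fin M) ℝ) : Mat M) * ψ X * (((ρ l)⁻¹ : GL (Fin M) ℝ) : Mat M)) =
        ((ρ l : GL (Fin M) ℝ) : Mat M) * (t • ψ X) * (((ρ l)⁻¹ : GL (Fin M) ℝ) : Mat M) := by
      rw [mul_smul_comm, smul_mul_assoc]
    rw [h3, ex_conj]

end Psi

end Pool.Agent.Helper23.EQ
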