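import Pool.Agent.Helper84.OB.SizG
import Pool.Agent.Helper35.TZ.Conn

/-!
# Project FQ (MP_0f6f3f_an), layer EQ: packing

`Pack z`: elements of the normaliser of a nontrivial closed subgroup `D` which are `δ`-separated modulo `D` in a compact set: there are at most `C δ^(-(d - 1))`. `pack`: proof by volume for a closed group of matrices.
-/

set_option autoImplicit false
set_option linter.unusedSectionVars false

open Filter Topology MeasureTheory Matrix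
open scoped ENNReal Pointwise

namespace Pool.Agent.Helper23.EQ

open Pool.Agent.Helper96.SA Pool.Agent.Helper84.OB
open Pool.Agent.Helper43.TZ (Siz exp_est)

section Abs

variable {𝕊 : Type} [Group 𝕊] [TopologicalSpace 𝕊] [IsTopologicalGroup 𝕊] [MeasurableSpace 𝕊] {μ : Measure 𝕊}

/-- The packing property. -/
def Pack (z : Siz 𝕊 μ) : Prop := ∀ D N : Subgroup 𝕊, IsClosed (D : Set 𝕊) → D ≠ ⊥ → (∀ n ∈ N, ∀ d ∈ D, n * d * n⁻¹ ∈ D) →
  ∀ B : Set 𝕊, IsCompact B → ∃ C : ℝ, ∀ δ : ℝ, 0 < δ → δ ≤ 1 → ∀ (n : ℕ) (g : Fin n → 𝕊), (∀ i, g i ∈ N ∧ g i ∈ B) →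
    (∀ i j, i ≠ j → ∀ d ∈ D, δ < z.ρ (g i * d * (g j)⁻¹)) → n * δ ^ z.d ≤ C * δ

variable [LocallyCompactSpace 𝕊] [T2Space 𝕊] [BorelSpace 𝕊] [μ.IsHaarMeasure] [μ.IsMulRightInvariant]

/-- Separated points in a compact set. -/
theorem pack0 (z : Siz 𝕊 μ) {B : Set 𝕊} (hB : IsCompact B) : ∃ C r : ℝ, 0 < C ∧ 0 < r ∧ ∀ δ : ℝ, 0 < δ → δ ≤ r →
    ∀ {ι : Type} (s : Finset ι) (p : ι → 𝕊), (∀ i ∈ s, p i ∈ B) → (∀ i ∈ s, ∀ j ∈ s, i ≠ j → 4 * δ ≤ z.ρ (p i * (p j)⁻¹)) →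
      s.card * δ ^ z.d ≤ C := by
  obtain ⟨K, hK, hK1⟩ := exists_compact_mem_nhds (1 : 𝕊)
  obtain ⟨r0, hr0, hr0'⟩ := z.basis K hK1
  obtain ⟨c, hc0, hc⟩ := z.vol
  have hKB : IsCompact (K * B) := hK.mul hB
  have hfin : μ (K * B) ≠ ⊤ := hKB.measure_lt_top.ne
  refine ⟨(μ (K * B)).toReal / c + 1, min r0 (1 / 8), by positivity, lt_min hr0 (by norm_num), fun δ hδ hδr ι s p hp hsep => ?_⟩
  have hδ0 : δ ≤ r0 := hδr.trans (min_le_left _ _)
  have hδ8 : δ ≤ 1 / 8 := hδr.trans (min_le_right _ _)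
  have hmeas : MeasurableSet {g : 𝕊 | z.ρ g < δ} := (isOpen_lt z.cont continuous_const).measurableSet
  let U : ι → Set 𝕊 := fun i => (fun g => g * (p i)⁻¹) ⁻¹' {g : 𝕊 | z.ρ g < δ}
  have hUm : ∀ i, MeasurableSet (U i) := fun i => (continuous_mul_const _).measurable hmeas
  have hUv : ∀ i, μ (U i) = μ {g : 𝕊 | z.ρ g < δ} := fun i => measure_preimage_mul_right μ _ _
  have hdis : (s : Set ι).PairwiseDisjoint U := by
    intro i hi j hj hij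
    rw [Function.onFun, Set.disjoint_left]
    intro g hgi hgj
    have h1 : z.ρ (g * (p i)⁻¹) < δ := hgi
    have h2 : z.ρ (g * (p j)⁻¹) < δ := hgj
    have h3 : p i * (p j)⁻¹ = (g * (p i)⁻¹)⁻¹ * (g * (p j)⁻¹) := by group
    have h4 := hsep i hi j hj hij
    rw [h3] at h4
    have h5 := z.mul (g * (p i)⁻¹)⁻¹ (g * (p j)⁻¹)
    have h6 := z.inv (g * (p i)⁻¹) (by linarith)
    have h7 := z.nonneg (g * (p i)⁻¹)
    have h8 := z.nonneg (g * (p j)⁻¹)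
    have h9 := z.nonneg (g * (p i)⁻¹)⁻¹
    nlinarith
  have hsub : (⋃ i ∈ s, U i) ⊆ K * B := by
    intro g hg
    obtain ⟨i, hi⟩ := Set.mem_iUnion.1 hg
    obtain ⟨his, hgi⟩ := Set.mem_iUnion.1 hi
    have h1 : z.ρ (g * (p i)⁻¹) < δ := hgi
    refine ⟨g * (p i)⁻¹, hr0' _ (h1.trans_le hδ0), p i, hp i his, ?_⟩
    simp
  have h1 : (s.card : ℝ≥0∞) * μ {g : 𝕊 | z.ρ g < δ} ≤ μ (K * B) := by
    calc (s.card : ℝ≥0∞) * μ {g : 𝕊 | z.ρ g < δ} = ∑ i ∈ s, μ (U i) := by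
          rw [Finset.sum_congr rfl fun i _ => hUv i, Finset.sum_const, nsmul_eq_mul]
      _ = μ (⋃ i ∈ s, U i) := (measure_biUnion_finset hdis fun i _ => hUm i).symm
      _ ≤ _ := measure_mono hsub
  have h2 : (s.card : ℝ≥0∞) * ENNReal.ofReal (c * δ ^ z.d) ≤ μ (K * B) :=
    (mul_le_mul_right (hc δ hδ (by linarith)) _).trans h1
  have h3 := ENNReal.toReal_mono hfin h2
  rw [ENNReal.toReal_mul, ENNReal.toReal_natCast, ENNReal.toReal_ofReal (by positivity)] at h3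
  have h4 : (s.card : ℝ) * δ ^ z.d ≤ (μ (K * B)).toReal / c := by
    rw [le_div_iff₀ hc0]
    linarith
  linarith

/-- The count. -/
theorem count (z : Siz 𝕊 μ) {B : Set 𝕊} (hB : IsCompact B) {e : ℝ → 𝕊} (he : Continuous e) (hadd : ∀ s t, e (s - t) = e s * (e t)⁻¹)
    {t0 κ κ' : ℝ} (ht0 : 0 < t0) (hκ : 0 < κ) (hκ' : 0 < κ') :
    ∃ C : ℝ, 0 ≤ C ∧ ∀ δ : ℝ, 0 < δ → δ ≤ 1 → ∀ {ι : Type} (s : Finset ι) (g : ι → 𝕊), (∀ i ∈ s, g i ∈ B) →
      (∀ i ∈ s, ∀ j ∈ s, i ≠ j → ∀ t, |t| ≤ t0 → κ * δ ≤ z.ρ (g i * e t * (g j)⁻¹)) →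
      (∀ i ∈ s, ∀ t, |t| ≤ t0 → κ' * |t| ≤ z.ρ (g i * e t * (g i)⁻¹)) → s.card * δ ^ z.d ≤ C * δ := by
  have hB' : IsCompact (B * e '' Set.Icc 0 t0) := hB.mul (isCompact_Icc.image he)
  obtain ⟨C, r, hC, hr, hpack⟩ := pack0 z hB'
  set κ1 : ℝ := min κ r with hκ1
  have hκ1p : 0 < κ1 := lt_min hκ hr
  refine ⟨C * (4 / κ1) ^ z.d * κ1 / (t0 * κ'), by positivity, fun δ hδ hδ1 ι s g hgB hsep hsep' => ?_⟩
  set m : ℕ := ⌊t0 * κ' / (κ1 * δ)⌋₊ + 1 with hm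
  have hq : 0 < κ1 * δ := by positivity
  have hm1 : t0 * κ' / (κ1 * δ) ≤ m := by
    rw [hm]
    push_cast
    exact (Nat.lt_floor_add_one _).le
  have hk : ∀ k : ℕ, k < m → (k : ℝ) * (κ1 * δ / κ') ≤ t0 := by
    intro k hk
    have h1 : k ≤ ⌊t0 * κ' / (κ1 * δ)⌋₊ := by omega
    have h2 : (k : ℝ) ≤ t0 * κ' / (κ1 * δ) := (Nat.cast_le.2 h1).trans (Nat.floor_le (by positivity))
    calc (k : ℝ) * (κ1 * δ / κ') ≤ t0 * κ' / (κ1 * δ) * (κ1 * δ / κ') := by gcongr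
      _ = t0 := by field_simp
  let p : ι × ℕ → 𝕊 := fun x => g x.1 * e (x.2 * (κ1 * δ / κ'))
  have h1 := hpack (κ1 * δ / 4) (by positivity) (by
    have h1 : κ1 ≤ r := min_le_right _ _
    nlinarith) (s ×ˢ Finset.range m) p (by
      rintro ⟨i, k⟩ hik
      rw [Finset.mem_product, Finset.mem_range] at hik
      exact ⟨g i, hgB i hik.1, e (k * (κ1 * δ / κ')), ⟨_, ⟨by positivity, hk k hik.2⟩, rfl⟩, rfl⟩) (by
      rintro ⟨i, k⟩ hik ⟨j, l⟩ hjl hne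
      rw [Finset.mem_product, Finset.mem_range] at hik hjl
      have h1 : p (i, k) * (p (j, l))⁻¹ = g i * e (k * (κ1 * δ / κ') - l * (κ1 * δ / κ')) * (g j)⁻¹ := by
        rw [hadd]
        change g i * e (k * (κ1 * δ / κ')) * (g j * e (l * (κ1 * δ / κ')))⁻¹ = _
        group
      have h2 : |(k : ℝ) * (κ1 * δ / κ') - l * (κ1 * δ / κ')| ≤ t0 := by
        have a1 := hk k hik.2
        have a2 := hk l hjl.2
        have a3 : 0 ≤ (k : ℝ) * (κ1 * δ / κ') := by positivity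
        have a4 : 0 ≤ (l : ℝ) * (κ1 * δ / κ') := by positivity
        rw [abs_le]
        constructor <;> linarith
      have h3 : 4 * (κ1 * δ / 4) = κ1 * δ := by ring
      rw [h1, h3]
      by_cases hij : i = j
      · subst hij
        have hkl : k ≠ l := fun h => hne (by rw [h])
        have h4 := hsep' i hik.1 _ h2
        refine le_trans ?_ h4
        have h5 : |(k : ℝ) * (κ1 * δ / κ') - l * (κ1 * δ / κ')| = |(k : ℝ) - l| * (κ1 * δ / κ') := by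
          rw [← sub_mul, abs_mul, abs_of_pos (show 0 < κ1 * δ / κ' by positivity)]
        rw [h5]
        have h6 : (1 : ℝ) ≤ |(k : ℝ) - l| := by
          have h7 : (k : ℤ) - l ≠ 0 := by omega
          have h8 : (1 : ℤ) ≤ |(k : ℤ) - l| := Int.one_le_abs h7
          exact_mod_cast h8
        calc κ1 * δ = κ' * (1 * (κ1 * δ / κ')) := by field_simp
          _ ≤ _ := by gcongr
      · refine le_trans ?_ (hsep i hik.1 j hjl.1 hij _ h2)
        have : κ1 ≤ κ := min_le_left _ _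
        gcongr)
  rw [Finset.card_product, Finset.card_range] at h1
  push_cast at h1
  have h2 : (s.card : ℝ) * (t0 * κ' / (κ1 * δ)) * (κ1 * δ / 4) ^ z.d ≤ C := by
    refine le_trans ?_ h1
    gcongr
  have h3 : (s.card : ℝ) * δ ^ z.d = (s.card : ℝ) * (t0 * κ' / (κ1 * δ)) * (κ1 * δ / 4) ^ z.d * ((4 / κ1) ^ z.d * (κ1 * δ) / (t0 * κ')) := by
    have e1 : (κ1 * δ / 4) ^ z.d * (4 / κ1) ^ z.d = δ ^ z.d := by
      rw [← mul_pow]
      congr 1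
      field_simp
    calc (s.card : ℝ) * δ ^ z.d = (s.card : ℝ) * ((κ1 * δ / 4) ^ z.d * (4 / κ1) ^ z.d) := by rw [e1]
      _ = _ := by field_simp
  rw [h3]
  calc _ ≤ C * ((4 / κ1) ^ z.d * (κ1 * δ) / (t0 * κ')) := by gcongr
    _ = _ := by ring

end Abs

section Mat

open scoped Matrix.Norms.Operator

variable {M : ℕ}

theorem exp_sub_lower {X Y : Mat M} (hXY : Y ≠ X) : ∃ t0 κ : ℝ, 0 < t0 ∧ 0 < κ ∧ ∀ t : ℝ, |t| ≤ t0 →
    κ * |t| ≤ ‖NormedSpace.exp (-(t • X)) * NormedSpace.exp (t • Y) - 1‖ := by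
  obtain ⟨r, hr, h⟩ := exp_est (M := M) (show (0 : ℝ) < 1 / 2 by norm_num) (by norm_num)
  have hn : 0 < ‖Y - X‖ := norm_pos_iff.2 (sub_ne_zero.2 hXY)
  set b : ℝ := ‖X‖ + ‖Y‖ + 1 with hb
  have hbp : 0 < b := by positivity
  refine ⟨r / b, ‖Y - X‖ / 2, by positivity, by positivity, fun t ht => ?_⟩
  have h1 : |t| * b ≤ r := by rwa [le_div_iff₀ hbp] at ht
  have hx : ‖t • X‖ ≤ r := by
    rw [norm_smul, Real.norm_eq_abs]
    refine le_trans ?_ h1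
    have := norm_nonneg Y
    gcongr
    linarith
  have hy : ‖t • Y‖ ≤ r := by
    rw [norm_smul, Real.norm_eq_abs]
    refine le_trans ?_ h1
    have := norm_nonneg X
    gcongr
    linarith
  have h2 := h (t • Y) (t • X) hy hx
  have h3 : ‖t • Y - t • X‖ = |t| * ‖Y - X‖ := by rw [← smul_sub, norm_smul, Real.norm_eq_abs]
  have h4 := norm_sub_norm_le (t • Y - t • X) (NormedSpace.exp (-(t • X)) * NormedSpace.exp (t • Y) - 1)
  rw [norm_sub_rev (t • Y - t • X)] at h4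
  rw [h3] at h2 h4
  linarith

theorem exp_upper (X : Mat M) : ∃ t0 C : ℝ, 0 < t0 ∧ 0 < C ∧ ∀ t : ℝ, |t| ≤ t0 → ‖NormedSpace.exp (t • X) - 1‖ ≤ C * |t| := by
  obtain ⟨r, hr, h⟩ := exp_est (M := M) (show (0 : ℝ) < 1 / 2 by norm_num) (by norm_num)
  refine ⟨r / (‖X‖ + 1), 2 * ‖X‖ + 1, by positivity, by positivity, fun t ht => ?_⟩
  have hbp : 0 < ‖X‖ + 1 := by positivity
  have h1 : |t| * (‖X‖ + 1) ≤ r := by rwa [le_div_iff₀ hbp] at ht
  have hx : ‖t • X‖ ≤ r := by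
    rw [norm_smul, Real.norm_eq_abs]
    refine le_trans ?_ h1
    gcongr
    linarith
  have h2 := h (t • X) 0 hx (by rw [norm_zero]; exact hr.le)
  rw [neg_zero, NormedSpace.exp_zero, one_mul, sub_zero] at h2
  have h3 : ‖t • X‖ = |t| * ‖X‖ := by rw [norm_smul, Real.norm_eq_abs]
  have h4 := norm_sub_norm_le (NormedSpace.exp (t • X) - 1) (t • X)
  rw [h3] at h2 h4
  have h5 := abs_nonneg t
  have h6 := norm_nonneg X
  nlinarith

variable {𝕊 : Type} [Group 𝕊] [TopologicalSpace 𝕊] [IsTopologicalGroup 𝕊] {j : 𝕊 →* GL (Fin M) ℝ}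

/-- The one-parameter subgroups. -/
theorem exists_one (hj : IsClosedEmbedding j) {D : Subgroup 𝕊} {X : Mat M} (hX : X ∈ lie (D.map j)) : ∃ e : ℝ → 𝕊, Continuous e ∧
    (∀ t, e t ∈ D) ∧ (∀ s t, e (s - t) = e s * (e t)⁻¹) ∧ ∀ t, j (e t) = ex (t • X) := by
  rw [mem_lie] at hX
  choose e he hje using fun t => hX t
  have hinj : Function.Injective j := hj.injective
  refine ⟨e, ?_, he, fun s t => hinj ?_, hje⟩
  · rw [hj.isEmbedding.continuous_iff]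
    have h1 : j ∘ e = fun t => ex (t • X) := funext hje
    rw [h1]
    exact continuous_ex.comp (continuous_id.smul continuous_const)
  · rw [map_mul, map_inv, hje, hje, hje, ← ex_neg, ← neg_smul, ← ex_add_smul, sub_eq_add_neg]

theorem bdd_j (hj : IsClosedEmbedding j) {B : Set 𝕊} (hB : IsCompact B) : ∃ R : ℝ, 1 ≤ R ∧ ∀ g ∈ B, ‖((j g : GL (Fin M) ℝ) : Mat M)‖ ≤ R ∧
    ‖((j g⁻¹ : GL (Fin M) ℝ) : Mat M)‖ ≤ R := by
  have hc := continuous_val_j hj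
  obtain ⟨R1, hR1⟩ := (hB.image hc).isBounded.exists_norm_le
  obtain ⟨R2, hR2⟩ := (hB.image (hc.comp continuous_inv)).isBounded.exists_norm_le
  refine ⟨max (max R1 R2) 1, le_max_right _ _, fun g hg => ⟨?_, ?_⟩⟩
  · exact (hR1 _ ⟨g, hg, rfl⟩).trans ((le_max_left _ _).trans (le_max_left _ _))
  · exact (hR2 _ ⟨g, hg, rfl⟩).trans ((le_max_right _ _).trans (le_max_left _ _))

/-- the conjugates of a one-parameter subgroup -/
theorem conj_lower (hj : IsClosedEmbedding j) {B : Set 𝕊} (hB : IsCompact B) {X : Mat M} (hX : X ≠ 0) {e : ℝ → 𝕊}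
    (he : ∀ t, j (e t) = ex (t • X)) : ∃ t0 κ : ℝ, 0 < t0 ∧ 0 < κ ∧ ∀ t, |t| ≤ t0 → ∀ g ∈ B, κ * |t| ≤ rj j (g * e t * g⁻¹) := by
  obtain ⟨R, hR1, hR⟩ := bdd_j hj hB
  obtain ⟨t0, κ, ht0, hκ, h⟩ := exp_sub_lower (X := 0) (Y := X) hX
  refine ⟨t0, κ / R ^ 2, ht0, by positivity, fun t ht g hg => ?_⟩
  have h1 := h t ht
  rw [smul_zero, neg_zero, NormedSpace.exp_zero, one_mul] at h1
  obtain ⟨hR2, hR3⟩ := hR g hg
  have e1 : ((j (g * e t * g⁻¹) : GL (Fin M) ℝ) : Mat M) - 1 =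
      ((j g : GL (Fin M) ℝ) : Mat M) * (NormedSpace.exp (t • X) - 1) * ((j g⁻¹ : GL (Fin M) ℝ) : Mat M) := by
    have e2 : ((j g : GL (Fin M) ℝ) : Mat M) * ((j g⁻¹ : GL (Fin M) ℝ) : Mat M) = 1 := by
      rw [← Units.val_mul, ← map_mul, mul_inv_cancel, map_one, Units.val_one]
    rw [map_mul, map_mul, Units.val_mul, Units.val_mul, he, ex_coe, mul_sub, sub_mul, mul_one, e2]
  have e3 : NormedSpace.exp (t • X) - 1 = ((j g⁻¹ : GL (Fin M) ℝ) : Mat M) * (((j (g * e t * g⁻¹) : GL (Fin M) ℝ) : Mat M) - 1) *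
      ((j g : GL (Fin M) ℝ) : Mat M) := by
    have e2 : ((j g⁻¹ : GL (Fin M) ℝ) : Mat M) * ((j g : GL (Fin M) ℝ) : Mat M) = 1 := by
      rw [← Units.val_mul, ← map_mul, inv_mul_cancel, map_one, Units.val_one]
    rw [e1]
    calc NormedSpace.exp (t • X) - 1 = 1 * (NormedSpace.exp (t • X) - 1) * 1 := by rw [one_mul, mul_one]
      _ = _ := by
        rw [← e2]
        noncomm_ring
  have h2 : ‖NormedSpace.exp (t • X) - 1‖ ≤ R * ‖((j (g * e t * g⁻¹) : GL (Fin M) ℝ) : Mat M) - 1‖ * R := by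
    conv_lhs => rw [e3]
    refine (norm_mul_le _ _).trans ?_
    refine mul_le_mul ((norm_mul_le _ _).trans ?_) hR2 (norm_nonneg _) (by positivity)
    exact mul_le_mul_of_nonneg_right hR3 (norm_nonneg _)
  unfold rj
  rw [div_mul_eq_mul_div, div_le_iff₀ (by positivity)]
  have h3 := norm_nonneg (((j (g * e t * g⁻¹) : GL (Fin M) ℝ) : Mat M) - 1)
  have h4 : (0 : ℝ) ≤ R ^ 2 := by positivity
  nlinarith [mul_nonneg h3 h4]

/-- elements which commute with `γ` and a one-parameter subgroup which does not -/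
theorem comm_lower (hj : IsClosedEmbedding j) {B : Set 𝕊} (hB : IsCompact B) {γ : 𝕊} {X : Mat M}
    (hX : ((j γ : GL (Fin M) ℝ) : Mat M) * X ≠ X * ((j γ : GL (Fin M) ℝ) : Mat M)) {e : ℝ → 𝕊} (hec : Continuous e)
    (he : ∀ t, j (e t) = ex (t • X)) : ∃ t0 κ : ℝ, 0 < t0 ∧ 0 < κ ∧ ∀ t, |t| ≤ t0 → ∀ c ∈ B, ∀ c' ∈ B, c * γ = γ * c → c' * γ = γ * c' →
      κ * rj j (c * c'⁻¹) ≤ rj j (c * e t * c'⁻¹) := by
  have hB2 : IsCompact (B ∪ {γ} ∪ e '' Set.Icc (-1) 1) := (hB.union isCompact_singleton).union (isCompact_Icc.image hec)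
  obtain ⟨R, hR1, hR⟩ := bdd_j hj hB2
  have hR0 : 0 < R := by linarith
  let v : 𝕊 → Mat M := fun g => ((j g : GL (Fin M) ℝ) : Mat M)
  have vm : ∀ g h, v (g * h) = v g * v h := fun g h => by
    change ((j (g * h) : GL (Fin M) ℝ) : Mat M) = _
    rw [map_mul, Units.val_mul]
  have v1 : v 1 = 1 := by
    change ((j 1 : GL (Fin M) ℝ) : Mat M) = _
    rw [map_one, Units.val_one]
  have vi : ∀ g, v g * v g⁻¹ = 1 := fun g => by rw [← vm, mul_inv_cancel, v1]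
  have vi' : ∀ g, v g⁻¹ * v g = 1 := fun g => by rw [← vm, inv_mul_cancel, v1]
  have ve : ∀ t, v (e t) = NormedSpace.exp (t • X) := fun t => by
    change ((j (e t) : GL (Fin M) ℝ) : Mat M) = _
    rw [he, ex_coe]
  have einv : ∀ t, v (e t)⁻¹ = NormedSpace.exp (-(t • X)) := fun t => by
    change ((j (e t)⁻¹ : GL (Fin M) ℝ) : Mat M) = _
    rw [map_inv, he, ← ex_neg, ex_coe]
  set Y : Mat M := v γ⁻¹ * X * v γ with hY
  have hYX : Y ≠ X := by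
    intro h
    apply hX
    change v γ * X = X * v γ
    calc v γ * X = v γ * Y := by rw [h]
      _ = (v γ * v γ⁻¹) * X * v γ := by rw [hY]; noncomm_ring
      _ = X * v γ := by rw [vi, one_mul]
  have hYe : ∀ t : ℝ, NormedSpace.exp (t • Y) = v γ⁻¹ * NormedSpace.exp (t • X) * v γ := by
    intro t
    have h1 := ex_conj (j γ⁻¹) (t • X)
    have h2 := congrArg (fun g : GL (Fin M) ℝ => (g : Mat M)) h1
    simp only [Units.val_mul, ex_coe] at h2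
    rw [← map_inv, inv_inv] at h2
    change _ = v γ⁻¹ * NormedSpace.exp (t • X) * v γ at h2
    rw [← h2]
    congr 1
    rw [hY, mul_smul_comm, smul_mul_assoc]
  obtain ⟨t1, κ1, ht1, hκ1, hlow⟩ := exp_sub_lower hYX
  obtain ⟨t2, C, ht2, hC, hup⟩ := exp_upper X
  set Q : ℝ := R ^ 3 + 2 * C * R ^ 9 / κ1 with hQ
  have hQp : 0 < Q := by positivity
  refine ⟨min (min t1 t2) 1, 1 / Q, lt_min (lt_min ht1 ht2) one_pos, by positivity, fun t ht c hc c' hc' hcγ hc'γ => ?_⟩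
  have ht1' : |t| ≤ t1 := ht.trans ((min_le_left _ _).trans (min_le_left _ _))
  have ht2' : |t| ≤ t2 := ht.trans ((min_le_left _ _).trans (min_le_right _ _))
  have ht3' : |t| ≤ 1 := ht.trans (min_le_right _ _)
  obtain ⟨c1, c2⟩ := hR c (Or.inl (Or.inl hc))
  obtain ⟨c3, c4⟩ := hR c' (Or.inl (Or.inl hc'))
  obtain ⟨g1, g2⟩ := hR γ (Or.inl (Or.inr rfl))
  obtain ⟨e1, e2⟩ := hR (e t) (Or.inr ⟨t, ⟨(abs_le.1 ht3').1, (abs_le.1 ht3').2⟩, rfl⟩)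
  change ‖v c‖ ≤ R at c1
  change ‖v c⁻¹‖ ≤ R at c2
  change ‖v c'‖ ≤ R at c3
  change ‖v c'⁻¹‖ ≤ R at c4
  change ‖v γ‖ ≤ R at g1
  change ‖v γ⁻¹‖ ≤ R at g2
  change ‖v (e t)‖ ≤ R at e1
  change ‖v (e t)⁻¹‖ ≤ R at e2
  obtain ⟨w, hw⟩ : ∃ w : 𝕊, w = c * e t * c'⁻¹ := ⟨_, rfl⟩
  have hwc : c * e t = w * c' := by rw [hw]; group
  set x : ℝ := ‖v w - 1‖ with hx
  have hx0 : 0 ≤ x := norm_nonneg _
  have n2 : ∀ {A A' : Mat M} {a a' : ℝ}, ‖A‖ ≤ a → ‖A'‖ ≤ a' → ‖A * A'‖ ≤ a * a' := fun {A A' a a'} h h' =>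
    (norm_mul_le _ _).trans (mul_le_mul h h' (norm_nonneg _) ((norm_nonneg _).trans h))
  have hwi : ‖v w⁻¹‖ ≤ R * R * R := by
    have h1 : w⁻¹ = c' * (e t)⁻¹ * c⁻¹ := by rw [hw]; group
    rw [h1, vm, vm]
    exact n2 (n2 c3 e2) c2
  -- the commutator
  have hcom : NormedSpace.exp (-(t • X)) * NormedSpace.exp (t • Y) - 1 = v c'⁻¹ * (v w⁻¹ * v γ⁻¹ * ((v w - 1) * v γ - v γ * (v w - 1))) * v c' := by
    have h1 : (e t)⁻¹ * (γ⁻¹ * e t * γ) = c'⁻¹ * (w⁻¹ * γ⁻¹ * w * γ) * c' := by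
      have h2 : (e t)⁻¹ * (γ⁻¹ * e t * γ) = (c * e t)⁻¹ * γ⁻¹ * (c * e t) * γ := by
        have h3 : c⁻¹ * γ⁻¹ * c = γ⁻¹ := by
          have h4 : c * γ⁻¹ = γ⁻¹ * c := (Commute.inv_right (show Commute c γ from hcγ)).eq
          rw [mul_assoc, ← h4, inv_mul_cancel_left]
        calc (e t)⁻¹ * (γ⁻¹ * e t * γ) = (e t)⁻¹ * (c⁻¹ * γ⁻¹ * c) * e t * γ := by rw [h3]; group
          _ = _ := by group
      rw [h2, hwc]
      have h5 : c'⁻¹ * γ = γ * c'⁻¹ := (Commute.inv_left (show Commute c' γ from hc'γ)).eq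
      calc (w * c')⁻¹ * γ⁻¹ * (w * c') * γ = c'⁻¹ * w⁻¹ * γ⁻¹ * w * (c' * γ) := by group
        _ = c'⁻¹ * w⁻¹ * γ⁻¹ * w * (γ * c') := by rw [hc'γ]
        _ = _ := by group
    have h2 := congrArg v h1
    simp only [vm] at h2
    rw [einv, ve] at h2
    rw [hYe, h2]
    have h3 : v w⁻¹ * v γ⁻¹ * ((v w - 1) * v γ - v γ * (v w - 1)) = v w⁻¹ * v γ⁻¹ * v w * v γ - 1 := by
      have h4 : v w⁻¹ * v γ⁻¹ * (v γ * v w) = 1 := by
        calc v w⁻¹ * v γ⁻¹ * (v γ * v w) = v w⁻¹ * (v γ⁻¹ * v γ) * v w := by noncomm_ring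
          _ = 1 := by rw [vi', mul_one, vi']
      calc v w⁻¹ * v γ⁻¹ * ((v w - 1) * v γ - v γ * (v w - 1)) = v w⁻¹ * v γ⁻¹ * v w * v γ - v w⁻¹ * v γ⁻¹ * (v γ * v w) := by noncomm_ring
        _ = _ := by rw [h4]
    rw [h3]
    have h5 : v c'⁻¹ * (v w⁻¹ * v γ⁻¹ * v w * v γ - 1) * v c' = v c'⁻¹ * (v w⁻¹ * v γ⁻¹ * v w * v γ) * v c' - v c'⁻¹ * v c' := by noncomm_ring
    rw [h5, vi']
  have hcb : κ1 * |t| ≤ 2 * R ^ 7 * x := by
    refine (hlow t ht1').trans ?_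
    rw [hcom]
    have h1 : ‖(v w - 1) * v γ - v γ * (v w - 1)‖ ≤ x * R + R * x :=
      (norm_sub_le _ _).trans (add_le_add (n2 le_rfl g1) (n2 g1 le_rfl))
    refine (n2 (n2 c4 (n2 (n2 hwi g2) h1)) c3).trans (le_of_eq ?_)
    ring
  have ht : |t| ≤ 2 * R ^ 7 * x / κ1 := by
    rw [le_div_iff₀ hκ1]
    linarith
  have hfin : ‖v (c * c'⁻¹) - 1‖ ≤ Q * x := by
    have h1 : c * c'⁻¹ = w * (c' * (e t)⁻¹ * c'⁻¹) := by rw [hw]; group
    have h2 : v (c * c'⁻¹) - 1 = (v w - 1) * (v c' * v (e t)⁻¹ * v c'⁻¹) + v c' * (v (e t)⁻¹ - 1) * v c'⁻¹ := by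
      rw [h1, vm, vm, vm]
      have h3 : v c' * (v (e t)⁻¹ - 1) * v c'⁻¹ = v c' * v (e t)⁻¹ * v c'⁻¹ - v c' * v c'⁻¹ := by noncomm_ring
      rw [h3, vi]
      noncomm_ring
    have h4 : ‖v (e t)⁻¹ - 1‖ ≤ C * |t| := by
      rw [einv, ← neg_smul]
      have := hup (-t) (by rwa [abs_neg])
      rwa [abs_neg] at this
    rw [h2]
    refine (norm_add_le _ _).trans ?_
    have h5 := n2 (le_refl ‖v w - 1‖) (n2 (n2 c3 e2) c4)
    have h6 := n2 (n2 c3 h4) c4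
    rw [← hx] at h5
    calc _ ≤ x * (R * R * R) + R * (C * |t|) * R := add_le_add h5 h6
      _ ≤ x * (R * R * R) + R * (C * (2 * R ^ 7 * x / κ1)) * R := by gcongr
      _ = Q * x := by
        rw [hQ]
        ring
  unfold rj
  rw [← hw]
  change 1 / Q * (2 * ‖v (c * c'⁻¹) - 1‖) ≤ 2 * x
  rw [one_div, inv_mul_le_iff₀ hQp]
  linarith

variable [LocallyCompactSpace 𝕊] [T2Space 𝕊] [MeasurableSpace 𝕊] [BorelSpace 𝕊] {μ : Measure 𝕊} [μ.IsHaarMeasure] [μ.IsMulRightInvariant]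

/-- **Packing.** -/
theorem pack (hj : IsClosedEmbedding j)
    (hf : ∀ γ : 𝕊, γ ≠ 1 → ∃ X ∈ lie j.range, ((j γ : GL (Fin M) ℝ) : Mat M) * X ≠ X * ((j γ : GL (Fin M) ℝ) : Mat M))
    (z : Siz 𝕊 μ) (hz : z.ρ = rj j) : Pack z := by
  classical
  intro D N hD hD1 hN B hB
  have hinj : Function.Injective j := hj.injective
  have hDc : IsClosed ((D.map j : Subgroup (GL (Fin M) ℝ)) : Set (GL (Fin M) ℝ)) := by
    rw [Subgroup.coe_map]
    exact hj.isClosedMap _ hD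
  by_cases hX : ∃ X ∈ lie (D.map j), X ≠ 0
  · obtain ⟨X, hX, hX0⟩ := hX
    obtain ⟨e, hec, heD, hadd, hej⟩ := exists_one hj hX
    obtain ⟨t0, κ, ht0, hκ, hlow⟩ := conj_lower hj hB hX0 hej
    obtain ⟨C, hC, hcount⟩ := count z hB hec hadd ht0 one_pos hκ
    refine ⟨C, fun δ hδ hδ1 n g hg hsep => ?_⟩
    have h1 := hcount δ hδ hδ1 (Finset.univ : Finset (Fin n)) g (fun i _ => (hg i).2)
      (fun i _ i' _ hii t _ => by
        rw [one_mul]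
        exact (hsep i i' hii (e t) (heD t)).le)
      (fun i _ t ht => by
        rw [hz]
        exact hlow t ht (g i) (hg i).2)
    rwa [Finset.card_univ, Fintype.card_fin] at h1
  · push Not at hX
    -- `D` is discrete
    obtain ⟨U, hU, hUe⟩ := Pool.Agent.Helper35.TZ.nhds_ex hDc
    have hU' : j ⁻¹' U ∈ 𝓝 (1 : 𝕊) := hj.continuous.continuousAt.preimage_mem_nhds (by rwa [map_one])
    have hdis : ∀ d ∈ D, d ∈ j ⁻¹' U → d = 1 := by
      intro d hd hdU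
      obtain ⟨X, hXl, hXe⟩ := hUe (j d) (Subgroup.mem_map_of_mem j hd) hdU
      rw [hX X hXl, ex_zero] at hXe
      exact hinj (by rw [← hXe, map_one])
    obtain ⟨γ, hγ, hγ1⟩ : ∃ γ ∈ D, γ ≠ 1 := by
      by_contra h
      push Not at h
      exact hD1 ((Subgroup.eq_bot_iff_forall D).2 h)
    obtain ⟨X, hXl, hXγ⟩ := hf γ hγ1
    have hX0 : X ≠ 0 := by
      rintro rfl
      exact hXγ (by rw [mul_zero, zero_mul])
    have hXl' : X ∈ lie ((⊤ : Subgroup 𝕊).map j) := by rwa [← MonoidHom.range_eq_map]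
    obtain ⟨e, hec, -, hadd, hej⟩ := exists_one hj hXl'
    have hBB : IsCompact (B * B⁻¹) := hB.mul hB.inv
    obtain ⟨t1, κ1, ht1, hκ1, hlow1⟩ := conj_lower hj hBB hX0 hej
    obtain ⟨t2, κ2, ht2, hκ2, hlow2⟩ := comm_lower hj hBB hXγ hec hej
    obtain ⟨C, hC, hcount⟩ := count z hBB hec hadd (lt_min ht1 ht2) hκ2 hκ1
    -- small pieces
    have hW : ∀ᶠ c : 𝕊 in 𝓝 1, c * γ * c⁻¹ * γ⁻¹ ∈ j ⁻¹' U := by
      have h1 : Tendsto (fun c : 𝕊 => c * γ * c⁻¹ * γ⁻¹) (𝓝 1) (𝓝 (1 * γ * 1⁻¹ * γ⁻¹)) :=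
        ((tendsto_id.mul_const γ).mul tendsto_id.inv).mul_const γ⁻¹
      rw [one_mul, inv_one, mul_one, mul_inv_cancel] at h1
      exact h1 hU'
    obtain ⟨V, hV, hVV⟩ : ∃ V ∈ 𝓝 (1 : 𝕊), ∀ v ∈ V, ∀ w ∈ V, v / w ∈ {c : 𝕊 | c * γ * c⁻¹ * γ⁻¹ ∈ j ⁻¹' U} := exists_nhds_split_inv hW
    obtain ⟨T, hT, hTB⟩ := hB.elim_nhds_subcover (fun x => {g | g * x⁻¹ ∈ V}) (by
      intro x _
      have h1 : Tendsto (fun g : 𝕊 => g * x⁻¹) (𝓝 x) (𝓝 1) := by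
        have := (continuous_mul_const x⁻¹).tendsto x
        rwa [mul_inv_cancel] at this
      exact h1 hV)
    refine ⟨T.card * C, fun δ hδ hδ1 n g hg hsep => ?_⟩
    let I : 𝕊 → Finset (Fin n) := fun x => Finset.univ.filter fun i => g i * x⁻¹ ∈ V
    have hI : ∀ x ∈ T, ((I x).card : ℝ) * δ ^ z.d ≤ C * δ := by
      intro x _
      rcases (I x).eq_empty_or_nonempty with h0 | ⟨i0, hi0⟩
      · rw [h0, Finset.card_empty, Nat.cast_zero, zero_mul]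
        positivity
      have h0V : g i0 * x⁻¹ ∈ V := (Finset.mem_filter.1 hi0).2
      have hcm : ∀ i ∈ I x, (g i * (g i0)⁻¹) * γ = γ * (g i * (g i0)⁻¹) := by
        intro i hi
        have hiV : g i * x⁻¹ ∈ V := (Finset.mem_filter.1 hi).2
        have h1 := hVV _ hiV _ h0V
        have h2 : g i * x⁻¹ / (g i0 * x⁻¹) = g i * (g i0)⁻¹ := by
          rw [div_eq_mul_inv]
          group
        rw [h2] at h1
        set c := g i * (g i0)⁻¹ with hc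
        have hcN : c ∈ N := N.mul_mem (hg i).1 (N.inv_mem (hg i0).1)
        have h3 : c * γ * c⁻¹ * γ⁻¹ ∈ D := D.mul_mem (hN c hcN γ hγ) (D.inv_mem hγ)
        have h4 := hdis _ h3 h1
        have h5 : c * γ * c⁻¹ = γ := mul_inv_eq_one.1 h4
        exact mul_inv_eq_iff_eq_mul.1 h5
      refine hcount δ hδ hδ1 (I x) (fun i => g i * (g i0)⁻¹) (fun i _ => ⟨g i, (hg i).2, (g i0)⁻¹, Set.inv_mem_inv.2 (hg i0).2, rfl⟩)
        (fun i hi i' hi' hii t ht => ?_) (fun i _ t ht => ?_)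
      · have h1 := hlow2 t (ht.trans (min_le_right _ _)) (g i * (g i0)⁻¹) ⟨g i, (hg i).2, (g i0)⁻¹, Set.inv_mem_inv.2 (hg i0).2, rfl⟩
          (g i' * (g i0)⁻¹) ⟨g i', (hg i').2, (g i0)⁻¹, Set.inv_mem_inv.2 (hg i0).2, rfl⟩ (hcm i hi) (hcm i' hi')
        rw [hz]
        refine le_trans ?_ h1
        have h2 := hsep i i' hii 1 D.one_mem
        rw [mul_one, hz] at h2
        have h3 : g i * (g i0)⁻¹ * (g i' * (g i0)⁻¹)⁻¹ = g i * (g i')⁻¹ := by group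
        rw [h3]
        exact mul_le_mul_of_nonneg_left h2.le hκ2.le
      · rw [hz]
        exact hlow1 t (ht.trans (min_le_left _ _)) _ ⟨g i, (hg i).2, (g i0)⁻¹, Set.inv_mem_inv.2 (hg i0).2, rfl⟩
    have hcov : (Finset.univ : Finset (Fin n)) ⊆ T.biUnion I := by
      intro i _
      obtain ⟨x, hx⟩ := Set.mem_iUnion.1 (hTB (hg i).2)
      obtain ⟨hxT, hgx⟩ := Set.mem_iUnion.1 hx
      exact Finset.mem_biUnion.2 ⟨x, hxT, Finset.mem_filter.2 ⟨Finset.mem_univ _, hgx⟩⟩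
    have hcard : (n : ℝ) ≤ ∑ x ∈ T, ((I x).card : ℝ) := by
      have h1 := (Finset.card_le_card hcov).trans Finset.card_biUnion_le
      rw [Finset.card_univ, Fintype.card_fin] at h1
      exact_mod_cast h1
    calc (n : ℝ) * δ ^ z.d ≤ (∑ x ∈ T, ((I x).card : ℝ)) * δ ^ z.d := by gcongr
      _ = ∑ x ∈ T, ((I x).card : ℝ) * δ ^ z.d := Finset.sum_mul _ _ _
      _ ≤ ∑ _x ∈ T, C * δ := Finset.sum_le_sum hI
      _ = T.card * C * δ := by rw [Finset.sum_const, nsmul_eq_mul, mul_assoc]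

end Mat

end Pool.Agent.Helper23.EQ
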