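import Pool.Agent.Helper23.EQ.One
import Pool.Agent.Helper87.FQ.Lf

/-!
# Project FQ (MP_0f6f3f_an), layer EQ: the linear isomorphism of the Levi factors

`exists_Th`: a continuous homomorphism `τ : S₁ → SS` (`S₁` a group with the one-parameter groups of `lsub A H`) which is not trivial on the one-parameter groups, and equal dimensions: there is a linear isomorphism
`Th : lsub A H ≃ lsub A' H'` with `Ad(τ(s)) Th = Th Ad(s)`.
-/

set_option autoImplicit false
set_option linter.unusedSectionVars false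

open Filter Topology Matrix

namespace Pool.Agent.Helper23.EQ

open Pool.Agent.Helper96.SA Pool.Agent.Helper96.TO Pool.Agent.Helper35.TZ Pool.Agent.Helper69.SLN Pool.Agent.Helper2.BC
open Pool.Agent.Helper87.FQ

variable {L L' : Type} [LieRing L] [LieAlgebra ℝ L] [LieRing L'] [LieAlgebra ℝ L'] {N N' : ℕ} {θ : L ≃ₗ⁅ℝ⁆ L} {θ' : L' ≃ₗ⁅ℝ⁆ L'}
  {b : Module.Basis (Fin N) ℝ L} {b' : Module.Basis (Fin N') ℝ L'} {A : Submodule ℝ L} {A' : Submodule ℝ L'}

/-- `g TT(x) g⁻¹ = TT(g x)` -/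
theorem conj_TT {g : GL (Fin N) ℝ} (hg : g ∈ autG b) (x : L) :
    (g : Mat N) * TT_to b x * ((g⁻¹ : GL (Fin N) ℝ) : Mat N) = TT_to b (ac b g x) := by
  have h1 : (g : Mat N) * TT_to b x = TT_to b (ac b g x) * (g : Mat N) := by
    apply (Matrix.toLin b b).injective
    refine LinearMap.ext fun y => ?_
    rw [toLin_mul b b b, toLin_mul b b b, LinearMap.comp_apply, LinearMap.comp_apply, toLin_TT_to, toLin_TT_to]
    exact ac_lie hg x y
  rw [h1, mul_assoc, Units.mul_inv, mul_one]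

theorem coe_sm {H : A} (c : ℝ) (x : lsub A H) : ((c • x : lsub A H) : L) = c • (x : L) := rfl

theorem coe_ad {H : A} (x y : lsub A H) : ((x + y : lsub A H) : L) = (x : L) + y := rfl

variable (h : CartanBasis θ b) (hA : MaxFlat θ A) (H : A) (h' : CartanBasis θ' b') (hA' : MaxFlat θ' A') (H' : A')
variable {S₁ : Type} [Group S₁] [TopologicalSpace S₁]

/-- The linear map, general form. -/
theorem exists_Th0 (ι : S₁ →* GL (Fin N) ℝ) (hι : Function.Injective ι) (e : lsub A H → S₁) (he : ∀ x, ι (e x) = ex (TT_to b (x : L)))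
    (ec : ∀ x : lsub A H, Continuous fun t : ℝ => e (t • x))
    (et : ∀ x y : lsub A H, Tendsto (fun n : ℕ => (e ((n : ℝ)⁻¹ • x) * e ((n : ℝ)⁻¹ • y)) ^ n) atTop (𝓝 (e (x + y))))
    (τ : S₁ →* SS h' hA' H') (hτ : Continuous τ) : ∃ Th : lsub A H →ₗ[ℝ] lsub A' H',
      (∀ x, ((τ (e x) : SS h' hA' H') : GL (Fin (Module.finrank ℝ (lsub A' H'))) ℝ) = ex (TT_to (bS h' hA' H') (Th x))) ∧
      ∀ (s : S₁) (hs : ι s ∈ Mh b (H : L)) (v : lsub A H), ac (bS h' hA' H') (τ s) (Th v) = Th (ac (bS h hA H) (res h hA H ⟨ι s, hs⟩) v) := by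
  obtain ⟨ψ, hψ, hψ'⟩ := exists_psi e ec (fun x a c => hι (by
    rw [map_mul, he, he, he, coe_sm, coe_sm, coe_sm, map_smul, map_smul, map_smul, ex_add_smul])) et
    ((SS h' hA' H').subtype.comp τ) (continuous_subtype_val.comp hτ)
  have hTi : Function.Injective (TT_to (bS h' hA' H')) := TT_inj_to (cbS h' hA' H')
  have hex : ∀ x, ∃ y, TT_to (bS h' hA' H') y = ψ x := by
    intro x
    refine TT_surj_to (cbS h' hA' H') ?_
    rw [mem_lie]
    intro t
    rw [← map_smul, ← hψ]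
    exact SS_le h' hA' H' (τ (e (t • x))).2
  choose T hT using hex
  have hadd : ∀ x y, T (x + y) = T x + T y := fun x y => hTi (by rw [map_add, hT, hT, hT, map_add])
  have hsm : ∀ (c : ℝ) x, T (c • x) = c • T x := fun c x => hTi (by rw [map_smul, hT, hT, map_smul])
  refine ⟨⟨⟨T, hadd⟩, hsm⟩, fun x => ?_, fun s hs v => ?_⟩
  · change _ = ex (TT_to (bS h' hA' H') (T x))
    rw [hT, ← hψ]
    rfl
  · change ac (bS h' hA' H') (τ s) (T v) = T (ac (bS h hA H) (res h hA H ⟨ι s, hs⟩) v)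
    apply hTi
    rw [← conj_TT (SS_le h' hA' H' (τ s).2), hT, hT]
    refine (hψ' s v _ fun t => hι ?_).symm
    rw [map_mul, map_mul, map_inv, he, he, coe_sm, coe_sm, map_smul, map_smul, ac_res,
      ← conj_TT (autC_le b hs.1)]
    have h3 : t • (((ι s : GL (Fin N) ℝ) : Mat N) * TT_to b (v : L) * (((ι s)⁻¹ : GL (Fin N) ℝ) : Mat N)) =
        ((ι s : GL (Fin N) ℝ) : Mat N) * (t • TT_to b (v : L)) * (((ι s)⁻¹ : GL (Fin N) ℝ) : Mat N) := by
      rw [mul_smul_comm, smul_mul_assoc]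
    rw [h3, ex_conj]

/-- **The linear isomorphism**, for a group `S₁` embedded in `GL(N, ℝ)`. -/
theorem exists_Th (ι : S₁ →* GL (Fin N) ℝ) (hι : IsEmbedding ι) (hm : ∀ x : lsub A H, ∃ s, ι s = ex (TT_to b (x : L)))
    (τ : S₁ →* SS h' hA' H') (hτ : Continuous τ)
    (hinj : ∀ x : lsub A H, x ≠ 0 → ∃ (t : ℝ) (s : S₁), ι s = ex (TT_to b ((t • x : lsub A H) : L)) ∧ τ s ≠ 1)
    (hd : Module.finrank ℝ (lsub A H) = Module.finrank ℝ (lsub A' H')) : ∃ Th : lsub A H ≃ₗ[ℝ] lsub A' H',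
      ∀ (s : S₁) (hs : ι s ∈ Mh b (H : L)) (v : lsub A H), ac (bS h' hA' H') (τ s) (Th v) = Th (ac (bS h hA H) (res h hA H ⟨ι s, hs⟩) v) := by
  choose e he using hm
  have hfin : Module.Finite ℝ L := Module.Finite.of_basis b
  have hfin' : Module.Finite ℝ L' := Module.Finite.of_basis b'
  obtain ⟨Th, h1, h2⟩ := exists_Th0 h hA H h' hA' H' ι hι.injective e he (fun x => by
      rw [hι.continuous_iff]
      have e1 : (ι ∘ fun t : ℝ => e (t • x)) = fun t : ℝ => ex (t • TT_to b (x : L)) := by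
        funext t
        change ι (e (t • x)) = _
        rw [he, coe_sm, map_smul]
      rw [e1]
      exact continuous_ex.comp (continuous_id.smul continuous_const)) (fun x y => by
      rw [hι.tendsto_nhds_iff]
      have h3 := trotter (TT_to b (x : L)) (TT_to b (y : L))
      have e1 : ι (e (x + y)) = ex (TT_to b (x : L) + TT_to b (y : L)) := by
        rw [he, coe_ad, map_add]
      rw [e1]
      refine h3.congr fun n => ?_
      change _ = ι ((e ((n : ℝ)⁻¹ • x) * e ((n : ℝ)⁻¹ • y)) ^ n)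
      rw [map_pow, map_mul, he, he, coe_sm, coe_sm, map_smul, map_smul]) τ hτ
  have hTi : Function.Injective Th := by
    rw [injective_iff_map_eq_zero]
    intro x hx
    by_contra hx0
    obtain ⟨t, s, hs, hts⟩ := hinj x hx0
    apply hts
    have e1 : s = e (t • x) := hι.injective (by rw [hs, he])
    apply Subtype.ext
    rw [e1, h1, map_smul, hx, smul_zero, map_zero, ex_zero]
    rfl
  exact ⟨LinearMap.linearEquivOfInjective Th hTi hd, fun s hs v => h2 s hs v⟩

end Pool.Agent.Helper23.EQ
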